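import Pool.Agent.HV.Main
import Pool.Agent.HV.Seq
import Pool.Agent.HV.Reg

/-!
# The Herzog–Vasconcelos conjecture for complete intersections

Let `k` be a field of characteristic zero, `A` the localization of `k[x_1, …, x_n]` at a prime and
`R = A/(f_1, …, f_c)` for an arbitrary `A`-regular sequence `f_1, …, f_c`. If the module
`Der_k(R, R)` has a finite projective resolution over `R`, then it is free; moreover `R` is then a
regular local ring.
-/

namespace Pool.Agent.Results.MP_e6b43d_al.CompleteIntersections

open Pool.Agent.HV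

/-- The resolution in the form of the question gives one in the internal form. -/
theorem hasRes_of {R D N : Type} [CommRing R] [AddCommMonoid D] [Module R D] [AddCommGroup N]
    [Module R N] (e : D ≃ₗ[R] N)
    (h : ∃ (P : ℕ → Type) (_ : ∀ i, AddCommGroup (P i)) (_ : ∀ i, Module R (P i)),
      (∀ i, Module.Projective R (P i)) ∧
      ∃ (d : ∀ i, P (i + 1) →ₗ[R] P i) (ε : P 0 →ₗ[R] D),
        Function.Surjective ε ∧ LinearMap.range (d 0) = LinearMap.ker ε ∧
        (∀ i, LinearMap.range (d (i + 1)) = LinearMap.ker (d i)) ∧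
        ∃ m : ℕ, ∀ i, m ≤ i → Subsingleton (P i)) :
    ∃ m, HasRes R m N := by
  obtain ⟨P, _, _, hP, d, ε, hε, h0, hd, m, hm⟩ := h
  refine ⟨m + 2, HasRes.of_resolution P d (e.toLinearMap ∘ₗ ε) (e.surjective.comp hε) ?_ hd m hm⟩
  rw [h0, LinearMap.ker_comp, LinearEquiv.ker]
  rfl

/-- **The Herzog–Vasconcelos conjecture for complete intersections.** Let `k` be a field of
characteristic zero, `q` a prime of `k[x_1, …, x_n]`, `rs` a regular sequence in the localization
`A` at `q` and `R = A / (rs)`. If `Der_k(R, R)` has a finite projective resolution over `R`, then it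
is a free `R`-module, and `R` is a regular local ring. -/
theorem result (k : Type) [Field k] [CharZero k] (n : ℕ) (q : Ideal (MvPolynomial (Fin n) k))
    [q.IsPrime] (rs : List (Localization.AtPrime q))
    (hrs : RingTheory.Sequence.IsRegular (Localization.AtPrime q) rs)
    (hpd : ∃ (P : ℕ → Type) (_ : ∀ i, AddCommGroup (P i))
        (_ : ∀ i, Module (Localization.AtPrime q ⧸ Ideal.ofList rs) (P i)),
        (∀ i, Module.Projective (Localization.AtPrime q ⧸ Ideal.ofList rs) (P i)) ∧
        ∃ (d : ∀ i, P (i + 1) →ₗ[Localization.AtPrime q ⧸ Ideal.ofList rs] P i)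
          (ε : P 0 →ₗ[Localization.AtPrime q ⧸ Ideal.ofList rs]
            Derivation k (Localization.AtPrime q ⧸ Ideal.ofList rs)
              (Localization.AtPrime q ⧸ Ideal.ofList rs)),
          Function.Surjective ε ∧
          LinearMap.range (d 0) = LinearMap.ker ε ∧
          (∀ i, LinearMap.range (d (i + 1)) = LinearMap.ker (d i)) ∧
          ∃ m : ℕ, ∀ i, m ≤ i → Subsingleton (P i)) :
    Module.Free (Localization.AtPrime q ⧸ Ideal.ofList rs)
      (Derivation k (Localization.AtPrime q ⧸ Ideal.ofList rs)
        (Localization.AtPrime q ⧸ Ideal.ofList rs)) ∧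
    IsRegularLocalRing (Localization.AtPrime q ⧸ Ideal.ofList rs) := by
  have hN : IsNoetherianRing (Localization.AtPrime q) :=
    IsLocalization.isNoetherianRing q.primeCompl _ inferInstance
  have hreg := reg_of_isRegular rs hrs
  obtain ⟨g, hg1, hg2⟩ := exists_numerators (P0 := MvPolynomial (Fin n) k) q.primeCompl
    (fun i : Fin rs.length => rs.get i) hreg
  have hI : Ideal.ofList rs = Ideal.span (Set.range fun j =>
      algebraMap (MvPolynomial (Fin n) k) (Localization.AtPrime q) (g j)) :=
    (ofList_eq_span_range rs).trans hg1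
  have hIt := ofList_ne_top rs hrs
  obtain ⟨e⟩ := exists_derEquiv (A := Localization.AtPrime q) (g := g) (I := Ideal.ofList rs)
    q.primeCompl hI
  obtain ⟨m, hres⟩ := hasRes_of e hpd
  have hs := jac_surjective q g (Ideal.ofList rs) hI hg2 hres
  refine ⟨?_, isRegular_of_jac q g (Ideal.ofList rs) hIt hI hs⟩
  have hnt : Nontrivial (Localization.AtPrime q ⧸ Ideal.ofList rs) :=
    Ideal.Quotient.nontrivial_iff.2 hIt
  have hloc : IsLocalRing (Localization.AtPrime q ⧸ Ideal.ofList rs) :=
    IsLocalRing.of_surjective' (Ideal.Quotient.mk _) Ideal.Quotient.mk_surjective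
  have hfree : Module.Free (Localization.AtPrime q ⧸ Ideal.ofList rs)
      (LinearMap.ker (jac g (Ideal.ofList rs))) :=
    free_of_surjective (jmat g (Ideal.ofList rs)) hs
  exact Module.Free.of_equiv e.symm

end Pool.Agent.Results.MP_e6b43d_al.CompleteIntersections
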