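import Pool.Agent.HVG.Main

/-!
# The Herzog–Vasconcelos conjecture for quasi-homogeneous rings

Let `k` be a field of characteristic zero, `w` positive integer weights of the variables
`x_1, …, x_n`, `A` the localization of `k[x_1, …, x_n]` at the origin and `I` an ideal of `A`
generated by weighted homogeneous polynomials, such that `R = A/I` is a normal domain. If
`Der_k(R, R)` has a finite projective resolution over `R`, then it is free, and moreover `R` is
a regular local ring.
-/

set_option autoImplicit false

namespace Pool.Agent.Results.MP_e6b43d_al.QuasiHomogeneous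

open Pool.Agent.HVG

theorem result (k : Type) [Field k] [CharZero k] (n : ℕ) (w : Fin n → ℕ) (hw : ∀ i, 0 < w i)
    (q : Ideal (MvPolynomial (Fin n) k)) [q.IsPrime]
    (hq : q = Ideal.span (Set.range MvPolynomial.X))
    (T : Set (MvPolynomial (Fin n) k))
    (hT : ∀ f ∈ T, ∃ m : ℕ, MvPolynomial.IsWeightedHomogeneous w f m)
    (I : Ideal (Localization.AtPrime q))
    (hI : I = Ideal.span (algebraMap (MvPolynomial (Fin n) k) (Localization.AtPrime q) '' T))
    [IsDomain (Localization.AtPrime q ⧸ I)] [IsIntegrallyClosed (Localization.AtPrime q ⧸ I)]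
    (hpd : ∃ (P : ℕ → Type) (_ : ∀ i, AddCommGroup (P i))
        (_ : ∀ i, Module (Localization.AtPrime q ⧸ I) (P i)),
        (∀ i, Module.Projective (Localization.AtPrime q ⧸ I) (P i)) ∧
        ∃ (d : ∀ i, P (i + 1) →ₗ[Localization.AtPrime q ⧸ I] P i)
          (ε : P 0 →ₗ[Localization.AtPrime q ⧸ I]
            Derivation k (Localization.AtPrime q ⧸ I) (Localization.AtPrime q ⧸ I)),
          Function.Surjective ε ∧
          LinearMap.range (d 0) = LinearMap.ker ε ∧
          (∀ i, LinearMap.range (d (i + 1)) = LinearMap.ker (d i)) ∧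
          ∃ m : ℕ, ∀ i, m ≤ i → Subsingleton (P i)) :
    Module.Free (Localization.AtPrime q ⧸ I)
      (Derivation k (Localization.AtPrime q ⧸ I) (Localization.AtPrime q ⧸ I)) ∧
    IsRegularLocalRing (Localization.AtPrime q ⧸ I) := by
  have hnt : Nontrivial (Localization.AtPrime q ⧸ I) := inferInstance
  have hN : IsNoetherianRing (Localization.AtPrime q) :=
    IsLocalization.isNoetherianRing q.primeCompl _ inferInstance
  have hloc : IsLocalRing (Localization.AtPrime q ⧸ I) :=
    IsLocalRing.of_surjective' (Ideal.Quotient.mk _) Ideal.Quotient.mk_surjective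
  obtain ⟨Q⟩ := exists_QH k n w hw T hT q hq I hI
  exact free_of_resolution Q hpd

end Pool.Agent.Results.MP_e6b43d_al.QuasiHomogeneous
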